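import Pool.Agent.Helper3.GM.ClassIa
import Pool.Agent.Helper47.GM.Q3
import Pool.Agent.Helper24.GM.R2

/-!
# Project GM, E1a: type I arcs (final form)
-/

open MeasureTheory Real Set Filter Topology

set_option autoImplicit false

namespace Pool.Agent.Helper60.GM

open Pool.Agent.Helper22.AE
open Pool.Agent.Helper92.GC (dt tp Tq uu tt arc dd sqa m6)
open Pool.Agent.Helper92.DT (m12 IsMul12)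
open Pool.Agent.Helper60.LT (Fr Tf xf yf df vf fr ac co Cut BB PP)
open Pool.Agent.Helper60.QL (nm Cone)
open Pool.Agent.Helper60.RT (R2 cn FR sp Pr prs ctr lf2 ln2 Dec12)

/-- case A, type I -/
theorem class_IG {η ε₀ B₀ B L : ℝ} {M : ℕ} (hη : 0 < η) (hε₀ : 0 < ε₀) (hB₀ : 1 ≤ B₀) (hB : 1 ≤ B) (hL : 1 ≤ L) (hM : 2 ≤ M) : ∃ C : ℝ, 1 ≤ C ∧
    ∀ (F : Fam), F.Ok B₀ → ∀ (X σ s₀ l A : ℝ) (N m₀ m₂ r₀ : ℕ) (P : Finset ℕ), ParG F M ε₀ L X σ s₀ l N m₀ m₂ r₀ → X * N < (M : ℝ) ^ (4 * m₂ + 4) → 1 ≤ A → 24 * A ^ 2 ≤ (M : ℝ) ^ m₂ → P ⊆ Finset.range (M ^ m₂) →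
      (∀ r ∈ P, |ctr (M ^ m₂) r - ctr (M ^ m₀) r₀| ≤ 12 / (M ^ m₀ : ℕ) ∧ ∃ n : ℤ × ℤ, Pr n ∧ A ≤ n.1 ∧ (n.1 : ℝ) ≤ 2 * A ∧ 24 * (n.1 : ℝ) ^ 2 ≤ (M : ℝ) ^ m₂ ∧
        |sp n - ctr (M ^ m₂) r| ≤ 24 / (M ^ m₂ : ℕ)) →
        SG F s₀ l B X (arc 0 (cn N) (M ^ m₀) r₀) (M ^ m₂) P ≤ ENNReal.ofReal (C * X ^ η * FR X N) := by
  refine class_IG_of (fun hη hB₀ hB => sec_bdG hη hB₀ hB) (fun {ε B₀ B β} hε hB₀ hB hβ => ?_) hη hε₀ hB₀ hB hL hM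
  obtain ⟨C, hC, h⟩ := r2G hε hB₀ hB hβ
  refine ⟨C, hC, fun F hF ι P I n X U σ s₀ l N h1 h2 h3 h4 h5 h6 h7 h8 h9 h10 => h F hF ι P I n X U σ s₀ l N h1 h2 h3 h4 h5 h6 h7 h8 h9 fun v => ?_⟩
  convert h10 v

end Pool.Agent.Helper60.GM
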