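import Pool.Agent.Helper3.GM.ClassIof

/-!
# Project GM, E1a: type I arcs, from the blocks Q3 and C4 (after Helper78/RT), second part
-/

open MeasureTheory Real Set Filter Topology

set_option autoImplicit false

namespace Pool.Agent.Helper60.GM

open Pool.Agent.Helper22.AE
open Pool.Agent.Helper92.GC (dt tp Tq uu tt arc dd sqa m6)
open Pool.Agent.Helper92.DT (m12 IsMul12)
open Pool.Agent.Helper60.LT (Fr Tf xf yf df vf fr ac co Cut BB PP)
open Pool.Agent.Helper60.QL (nm Cone)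
open Pool.Agent.Helper60.RT (R2 cn FR sp Pr prs ctr lf2 ln2 hoelder78 five78 Cut.mono78 arc_near cn_cone cn_cut count_I num_bds)
open Pool.Agent.Helper78.QL (card_le mem_arc)

/-- many arcs: the moments of all together -/
theorem caseTwoh3 {F : Fam} {η ε₀ B₀ B L β : ℝ} {M : ℕ} (hF : F.Ok B₀) (hB₀ : 1 ≤ B₀) {Cr Cn : ℝ} (hM : 2 ≤ M) (hη : 0 < η) (hε₀ : 0 < ε₀) (hCr : 1 ≤ Cr)
    (hCn : 1 ≤ Cn) (hβ1 : 24 ^ 12 ≤ β) (hβ2 : 24 ^ 12 * (M : ℝ) ^ 4 ≤ β) (hβ3 : B₀ ≤ β)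
    (hr : ∀ (ι : Type) (P : Finset ι) (I : ι → Finset (ℤ × ℤ)) (n : ι → ℤ × ℤ) (X U σ s₀ l : ℝ) (N : ℕ), 1 ≤ X → 1 ≤ N → (N : ℝ) ≤ X → 1 ≤ U → 0 < σ → σ ≤ β → In s₀ l →
      (∀ p ∈ P, Pr (n p) ∧ U ≤ β * (n p).1 ∧ ((n p).1 : ℝ) ≤ β * U ∧ |sp (n p)| ≤ 3 ∧ ∀ s ∈ Icc (s₀ - l) (s₀ + l), σ ≤ |F.J s (sp (n p))|) →
      (∀ p ∈ P, Cut β (I p) ∧ I p ⊆ cn N ∧ ∀ k ∈ I p, ((n p).1 : ℝ) ^ 2 * |tt 0 k - sp (n p)| ≤ 2 ∧ |tt 0 k - sp (n p)| ^ 4 * (X * N) ≤ β) →
      (∀ v : ℤ × ℤ, ((open Classical in P.filter (fun p => n p = v)).card : ℝ) ≤ β) →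
        ∑ p ∈ P, RN F s₀ l B X (I p) ≤ ENNReal.ofReal (Cr * (X * N) ^ (η / 2) * (X / (σ * l)) * U ^ (-(10 : ℝ)) * BB N (X * N)))
    {X σ s₀ l A : ℝ} {N m₀ m₂ r₀ : ℕ} {P : Finset ℕ} {c : ℝ} (hpar : ParG F M ε₀ L X σ s₀ l N m₀ m₂ r₀) (hk2 : X * N < ((M : ℝ) ^ m₂) ^ 4 * (M : ℝ) ^ 4) (hA : 1 ≤ A) (hc0 : 0 ≤ c)
    (hK : 2 * B₀ * (L + 30) ≤ (X * N) ^ ε₀) (h3 : 15 ≤ (M : ℝ) ^ m₂) (hc : (P.card : ℝ) ≤ c * A ^ 2 * (1 / (M : ℝ) ^ m₀)) (hcr : P ⊆ Finset.range (M ^ m₂))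
    (hn1 : X * BB N (X * N) ≤ Cn * FR X N) (hn5 : (X * N) ^ (3 / 2 : ℝ) ≤ Cn * FR X N)
    (hP : ∀ r ∈ P, ∃ n : ℤ × ℤ, Pr n ∧ A ≤ n.1 ∧ (n.1 : ℝ) ≤ 2 * A ∧ 24 * (n.1 : ℝ) ^ 2 ≤ (M : ℝ) ^ m₂ ∧ |sp n - ctr (M ^ m₂) r| ≤ 24 / (M ^ m₂ : ℕ)) :
    SG F s₀ l B X (arc 0 (cn N) (M ^ m₀) r₀) (M ^ m₂) P ≤ ENNReal.ofReal ((2 * c ^ 5 * Cr * Cn + Cn) * X ^ η * FR X N) := by
  classical
  obtain ⟨hNX, hK1, hKX, hXK, hy1, hm, hy4, hσz, -⟩ := parG_factsh3 hM hε₀ hpar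
  have hX := hpar.X1
  have hX0 : 0 < X := by linarith
  have hN := hpar.N1
  have hN1 : (1 : ℝ) ≤ N := by exact_mod_cast hN
  have hσ := hpar.σ0
  have hin := hpar.inn
  have hl0 : 0 < l := hin.1
  have hM0 : (2 : ℝ) ≤ M := by exact_mod_cast hM
  obtain ⟨G, hG⟩ : ∃ G, G = arc 0 (cn N) (M ^ m₀) r₀ := ⟨_, rfl⟩
  have hgd := hpar.gd
  have hσm := hpar.σm
  have hl1 := hpar.l1
  have hl2 := hpar.l2
  rw [← hG] at hgd ⊢
  have hGcn : G ⊆ cn N := by rw [hG]; exact fun k hk => (mem_arc.1 hk).1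
  obtain ⟨z, hz⟩ : ∃ z, z = (M : ℝ) ^ m₀ := ⟨_, rfl⟩
  have hz0 : 0 < z := by rw [hz]; positivity
  have hz1 : 1 ≤ z := by rw [hz]; exact one_le_pow₀ (by linarith)
  rw [← hz] at hm hσz hσm hl1 hl2 hc
  obtain ⟨y, hy⟩ : ∃ y, y = (M : ℝ) ^ m₂ := ⟨_, rfl⟩
  rw [← hy] at h3 hy1 hy4 hk2 hm
  have hy0 : 0 < y := by linarith
  have hyc : (((M ^ m₂ : ℕ) : ℕ) : ℝ) = y := by
    rw [hy]
    push_cast
    rfl
  obtain ⟨K, hKd⟩ : ∃ K : ℝ, K = X * N := ⟨_, rfl⟩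
  rw [← hKd] at hK1 hKX hXK hy4 hk2 hσm hK hn1 hn5
  have hK0 : 0 < K := by linarith
  have hFR0 : 0 ≤ FR X N := by
    by_contra hcon
    push Not at hcon
    have h1 : Cn * FR X N < 0 := mul_neg_of_pos_of_neg (by linarith) hcon
    have h2 : 0 < K ^ (3 / 2 : ℝ) := by positivity
    linarith
  have hXη : 1 ≤ X ^ η := Real.one_le_rpow hX hη.le
  choose! n hn using hP
  -- the nonempty arcs
  obtain ⟨P', hP'⟩ : ∃ P', P' = P.filter (fun r => (arc 0 G (M ^ m₂) r).Nonempty) := ⟨_, rfl⟩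
  have hsum : ∑ r ∈ P, RN F s₀ l B X (arc 0 G (M ^ m₂) r) = ∑ r ∈ P', RN F s₀ l B X (arc 0 G (M ^ m₂) r) := by
    rw [hP', Finset.sum_filter]
    refine Finset.sum_congr rfl fun r _ => ?_
    split_ifs with h
    · rfl
    · rw [Finset.not_nonempty_iff_eq_empty.1 h, RN_emptyh3]
  have hmem : ∀ r ∈ P', r ∈ P ∧ (arc 0 G (M ^ m₂) r).Nonempty := by
    intro r hr'
    rw [hP', Finset.mem_filter] at hr'
    exact hr'
  -- the distance of the slopes
  have hdist : ∀ r ∈ P, ∀ k ∈ arc 0 G (M ^ m₂) r, |tt 0 k - sp (n r)| ≤ 30 / y := by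
    intro r hr' k hk
    have h1 := arc_near (Nat.one_le_pow _ _ (by omega)) hGcn hk
    have h2 := (hn r hr').2.2.2.2
    rw [hyc] at h1 h2
    calc |tt 0 k - sp (n r)| = |(tt 0 k - ctr (M ^ m₂) r) - (sp (n r) - ctr (M ^ m₂) r)| := by ring_nf
      _ ≤ |tt 0 k - ctr (M ^ m₂) r| + |sp (n r) - ctr (M ^ m₂) r| := abs_sub _ _
      _ ≤ 6 / y + 24 / y := add_le_add h1 h2
      _ = 30 / y := by ring
  have h30 : 30 / y ≤ 2 := by
    rw [div_le_iff₀ hy0]
    linarith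
  have h30z : 30 / y ≤ 30 / z := div_le_div_of_nonneg_left (by norm_num) hz0 hm
  have htt : ∀ k ∈ G, |tt 0 k| ≤ 1 := fun k hk => ((cn_cone hN).2 k (hGcn hk)).2.2
  have hs₀ : s₀ ∈ Icc (-1 : ℝ) 2 := ⟨by linarith [hin.2.1], by linarith [hin.2.2]⟩
  have key : (P.card : ENNReal) ^ 5 * ∑ r ∈ P, RN F s₀ l B X (arc 0 G (M ^ m₂) r) ≤ ENNReal.ofReal (2 * c ^ 5 * Cr * Cn * X ^ η * FR X N) := by
    rw [hsum]
    rcases P'.eq_empty_or_nonempty with hemp | ⟨r₁, hr₁⟩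
    · rw [hemp, Finset.sum_empty, mul_zero]
      exact zero_le
    obtain ⟨hr₁P, k₁, hk₁⟩ := hmem r₁ hr₁
    have hk₁G : k₁ ∈ G := (mem_arc.1 hk₁).1
    have hσG : σ ≤ B₀ := (hgd k₁ hk₁G).1.trans (hF.bd s₀ hs₀ _ ((htt k₁ hk₁G).trans (by norm_num))).2.2.2.2.2.2.1
    have h1 := hr ℕ P' (fun r => arc 0 G (M ^ m₂) r) n X A (σ / 2) s₀ l N hX hN hNX hA (by positivity) (by linarith) hin ?_ ?_ ?_
    · refine (mul_le_mul' (le_refl _) h1).trans ?_
      have hp : (0 : ℝ) ≤ (P.card : ℝ) := Nat.cast_nonneg _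
      rw [← ENNReal.ofReal_natCast, ← ENNReal.ofReal_pow hp, ← ENNReal.ofReal_mul (by positivity)]
      refine ENNReal.ofReal_le_ofReal ?_
      have hA10 : A ^ (-(10 : ℝ)) = (A ^ 10)⁻¹ := by
        rw [Real.rpow_neg (by linarith)]
        congr 1
        exact_mod_cast Real.rpow_natCast A 10
      have hBB0 : 0 ≤ BB (N : ℝ) K := by
        unfold BB
        positivity
      rw [← hKd, hA10]
      have hKη : K ^ (η / 2) ≤ X ^ η := by
        calc K ^ (η / 2) ≤ (X ^ 2) ^ (η / 2) := Real.rpow_le_rpow hK0.le hKX (by positivity)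
          _ = X ^ η := by
            rw [← Real.rpow_natCast, ← Real.rpow_mul hX0.le]
            congr 1
            push_cast
            ring
      have hA0 : 0 < A := by linarith
      have hlam : (1 / z) ^ 5 / (σ * l) ≤ 1 := by
        rw [div_le_one (by positivity)]
        have e1 : 1 / z ≤ σ := by
          rw [div_le_iff₀ hz0]
          exact hσz
        have e2 : 1 / z ≤ l := by
          rw [div_le_iff₀ hz0]
          exact hl1
        have e3 : 1 / z ≤ 1 := by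
          rw [div_le_one hz0]
          exact hz1
        have e0 : 0 ≤ 1 / z := by positivity
        calc (1 / z) ^ 5 = (1 / z) ^ 3 * ((1 / z) * (1 / z)) := by ring
          _ ≤ 1 * (σ * l) := mul_le_mul (pow_le_one₀ e0 e3) (mul_le_mul e1 e2 e0 hσ.le) (by positivity) (by norm_num)
          _ = σ * l := one_mul _
      calc (P.card : ℝ) ^ 5 * (Cr * K ^ (η / 2) * (X / (σ / 2 * l)) * (A ^ 10)⁻¹ * BB N K) ≤
            (c * A ^ 2 * (1 / z)) ^ 5 * (Cr * K ^ (η / 2) * (X / (σ / 2 * l)) * (A ^ 10)⁻¹ * BB N K) := by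
            gcongr
        _ = 2 * c ^ 5 * Cr * ((1 / z) ^ 5 / (σ * l)) * K ^ (η / 2) * (X * BB N K) := by
            field_simp
        _ ≤ 2 * c ^ 5 * Cr * 1 * X ^ η * (Cn * FR X N) := by
            gcongr
        _ = 2 * c ^ 5 * Cr * Cn * X ^ η * FR X N := by ring
    · intro r hr'
      obtain ⟨hrP, k, hk⟩ := hmem r hr'
      obtain ⟨p1, p2, p3, -, -⟩ := hn r hrP
      have hkG : k ∈ G := (mem_arc.1 hk).1
      have hd := hdist r hrP k hk
      have ht1 := htt k hkG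
      have hs3 : |sp (n r)| ≤ 3 := by
        have h2 : |sp (n r)| ≤ |tt 0 k| + |tt 0 k - sp (n r)| := by
          calc |sp (n r)| = |tt 0 k - (tt 0 k - sp (n r))| := by ring_nf
            _ ≤ |tt 0 k| + |tt 0 k - sp (n r)| := abs_sub _ _
        linarith
      have hn0 : (0 : ℝ) < (n r).1 := by linarith
      have hβ' : (2 : ℝ) ≤ β := le_trans (by norm_num) hβ1
      refine ⟨p1, ?_, ?_, hs3, ?_⟩
      · calc A ≤ 1 * ((n r).1 : ℝ) := by rw [one_mul]; exact p2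
          _ ≤ β * (n r).1 := mul_le_mul_of_nonneg_right (by linarith) hn0.le
      · exact p3.trans (mul_le_mul_of_nonneg_right hβ' (by linarith))
      · intro s hs
        have hs' : s ∈ Icc (-1 : ℝ) 2 := ⟨by linarith [hin.2.1, hs.1], by linarith [hin.2.2, hs.2]⟩
        have h2 := (hF.lipJ s₀ hs₀ s hs' (tt 0 k) (sp (n r)) (ht1.trans (by norm_num)) (hs3.trans (by norm_num))).1
        have h3' := (hgd k hkG).1
        have h4 : |F.J s₀ (tt 0 k)| ≤ |F.J s (sp (n r))| + |F.J s₀ (tt 0 k) - F.J s (sp (n r))| := by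
          have h5 := abs_add_le (F.J s (sp (n r))) (F.J s₀ (tt 0 k) - F.J s (sp (n r)))
          rw [add_sub_cancel] at h5
          exact h5
        have h6 : |s₀ - s| ≤ l := by
          rw [abs_le]
          exact ⟨by linarith [hs.2], by linarith [hs.1]⟩
        have h7 : l ≤ L / z := by
          rw [le_div_iff₀ hz0]
          exact hl2
        have h5 : B₀ * (|s₀ - s| + |tt 0 k - sp (n r)|) ≤ σ / 2 := by
          calc B₀ * (|s₀ - s| + |tt 0 k - sp (n r)|) ≤ B₀ * (L / z + 30 / z) := by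
                refine mul_le_mul_of_nonneg_left ?_ (by linarith)
                linarith
            _ = 2 * B₀ * (L + 30) / z / 2 := by ring
            _ ≤ σ / 2 := by
              refine div_le_div_of_nonneg_right ?_ (by norm_num)
              rw [div_le_iff₀ hz0]
              exact hK.trans hσm
        linarith
    · intro r hr'
      obtain ⟨hrP, -⟩ := hmem r hr'
      obtain ⟨p1, p2, p3, p4, -⟩ := hn r hrP
      refine ⟨?_, fun k hk => hGcn (mem_arc.1 hk).1, ?_⟩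
      · rw [hG]
        exact Cut.mono78 (((cn_cut N).2 _ _ (Nat.one_le_pow _ _ (by omega))).2 _ _ (Nat.one_le_pow _ _ (by omega))).1 hβ1
      · intro k hk
        have hd := hdist r hrP k hk
        rw [← hy] at p4
        constructor
        · calc ((n r).1 : ℝ) ^ 2 * |tt 0 k - sp (n r)| ≤ (y / 24) * (30 / y) := by
                refine mul_le_mul ?_ hd (abs_nonneg _) (by positivity)
                linarith
            _ = 5 / 4 := by
                field_simp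
                norm_num
            _ ≤ 2 := by norm_num
        · rw [← hKd]
          calc |tt 0 k - sp (n r)| ^ 4 * K ≤ (30 / y) ^ 4 * (y ^ 4 * (M : ℝ) ^ 4) := by gcongr
            _ = 30 ^ 4 * (M : ℝ) ^ 4 := by field_simp
            _ ≤ 24 ^ 12 * (M : ℝ) ^ 4 := mul_le_mul_of_nonneg_right (by norm_num) (by positivity)
            _ ≤ β := hβ2
    · intro v
      have h2 : (P'.filter (fun p => n p = v)).card ≤ 5 := by
        refine five78 (N := M ^ m₂) (Nat.one_le_pow _ _ (by omega)) (s := sp v) fun r hr' => ?_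
        rw [Finset.mem_filter] at hr'
        have h3' := (hn r (hmem r hr'.1).1).2.2.2.2
        rw [hr'.2] at h3'
        exact h3'
      have h3' : ((P'.filter (fun p => n p = v)).card : ℝ) ≤ 5 := by exact_mod_cast h2
      refine le_trans ?_ (h3'.trans (le_trans (by norm_num) hβ1))
      refine le_of_eq ?_
      congr!
  have hp : (0 : ℝ) ≤ (P.card : ℝ) := Nat.cast_nonneg _
  have hcy : (P.card : ℝ) ≤ y := by
    have h1 := Finset.card_le_card hcr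
    rw [Finset.card_range] at h1
    have h2 : (P.card : ℝ) ≤ ((M ^ m₂ : ℕ) : ℝ) := by exact_mod_cast h1
    rw [hyc] at h2
    exact h2
  have h6 : (P.card : ENNReal) ^ 5 * (P.card : ENNReal) ≤ ENNReal.ofReal (Cn * X ^ η * FR X N) := by
    rw [← pow_succ, ← ENNReal.ofReal_natCast, ← ENNReal.ofReal_pow hp]
    refine ENNReal.ofReal_le_ofReal ?_
    calc (P.card : ℝ) ^ (5 + 1) ≤ y ^ (5 + 1) := by gcongr
      _ = (y ^ 4) ^ (3 / 2 : ℝ) := by
        rw [← Real.rpow_natCast y 4, ← Real.rpow_mul hy0.le, ← Real.rpow_natCast]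
        norm_num
      _ ≤ K ^ (3 / 2 : ℝ) := Real.rpow_le_rpow (by positivity) hy4 (by norm_num)
      _ ≤ Cn * FR X N := hn5
      _ ≤ (Cn * FR X N) * X ^ η := le_mul_of_one_le_right (by positivity) hXη
      _ = Cn * X ^ η * FR X N := by ring
  unfold SG
  refine (hoelder78 P _).trans ?_
  rw [Finset.sum_add_distrib, mul_add, Finset.sum_const, nsmul_eq_mul, mul_one]
  refine (add_le_add key h6).trans (le_of_eq ?_)
  rw [← ENNReal.ofReal_add (by positivity) (by positivity)]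
  congr 1
  ring

end Pool.Agent.Helper60.GM
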