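import Pool.Agent.Helper3.GM.ClassI0

/-!
# Project GM, E1a: type I arcs, from the blocks Q3 and C4 (after Helper78/RT), assembly
-/

open MeasureTheory Real Set Filter Topology

set_option autoImplicit false

namespace Pool.Agent.Helper60.GM

open Pool.Agent.Helper22.AE
open Pool.Agent.Helper92.GC (dt tp Tq uu tt arc dd sqa m6)
open Pool.Agent.Helper92.DT (m12 IsMul12)
open Pool.Agent.Helper60.LT (Fr Tf xf yf df vf fr ac co Cut BB PP)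
open Pool.Agent.Helper60.QL (nm Cone)
open Pool.Agent.Helper60.RT (R2 cn FR sp Pr prs ctr lf2 ln2 hoelder78 five78 Cut.mono78 arc_near cn_cone cn_cut count_I num_bds)
open Pool.Agent.Helper78.QL (card_le mem_arc)

/-- E1a from the other blocks -/
theorem class_IG_of (hQ3 : StQ3h3) (hC4 : StC4h3) {η ε₀ B₀ B L : ℝ} {M : ℕ} (hη : 0 < η) (hε₀ : 0 < ε₀) (hB₀ : 1 ≤ B₀) (hB : 1 ≤ B) (hL : 1 ≤ L) (hM : 2 ≤ M) : ∃ C : ℝ, 1 ≤ C ∧
    ∀ (F : Fam), F.Ok B₀ → ∀ (X σ s₀ l A : ℝ) (N m₀ m₂ r₀ : ℕ) (P : Finset ℕ), ParG F M ε₀ L X σ s₀ l N m₀ m₂ r₀ → X * N < (M : ℝ) ^ (4 * m₂ + 4) → 1 ≤ A → 24 * A ^ 2 ≤ (M : ℝ) ^ m₂ → P ⊆ Finset.range (M ^ m₂) →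
      (∀ r ∈ P, |ctr (M ^ m₂) r - ctr (M ^ m₀) r₀| ≤ 12 / (M ^ m₀ : ℕ) ∧ ∃ n : ℤ × ℤ, Pr n ∧ A ≤ n.1 ∧ (n.1 : ℝ) ≤ 2 * A ∧ 24 * (n.1 : ℝ) ^ 2 ≤ (M : ℝ) ^ m₂ ∧
        |sp n - ctr (M ^ m₂) r| ≤ 24 / (M ^ m₂ : ℕ)) →
        SG F s₀ l B X (arc 0 (cn N) (M ^ m₀) r₀) (M ^ m₂) P ≤ ENNReal.ofReal (C * X ^ η * FR X N) := by
  classical
  have hM0 : (2 : ℝ) ≤ M := by exact_mod_cast hM
  have hB0 : 0 < B := by linarith
  obtain ⟨Cq, hCq, hq⟩ := hQ3 hη hB₀ hB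
  have hM4 : (1 : ℝ) ≤ (M : ℝ) ^ 4 := one_le_pow₀ (by linarith)
  obtain ⟨β, hβ⟩ : ∃ β, β = 24 ^ 12 * (M : ℝ) ^ 4 * B₀ := ⟨_, rfl⟩
  have hβ2 : 24 ^ 12 * (M : ℝ) ^ 4 ≤ β := by
    rw [hβ]
    exact le_mul_of_one_le_right (by positivity) hB₀
  have hβ1 : 24 ^ 12 ≤ β := le_trans (le_mul_of_one_le_right (by positivity) hM4) hβ2
  have hβ3 : B₀ ≤ β := by
    rw [hβ]
    refine le_mul_of_one_le_left (by linarith) ?_
    exact one_le_mul_of_one_le_of_one_le (by norm_num) hM4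
  obtain ⟨Cr, hCr, hr⟩ := hC4 (ε := η / 2) (by positivity) hB₀ hB (β := β) (le_trans (by norm_num) hβ1)
  obtain ⟨c₁, hc₁, hcnt⟩ := count_I
  obtain ⟨Cn, hCn, hnum⟩ := num_bds (b := 1296 * (M : ℝ) ^ 4) (by linarith)
  obtain ⟨K₀, hK₀⟩ := eventually_atTop.1 (((tendsto_rpow_atTop hε₀).eventually_ge_atTop (2 * B₀ * (L + 30))).and
    (eventually_ge_atTop ((15 * (M : ℝ)) ^ 4)))
  obtain ⟨K₁, hK₁⟩ : ∃ K₁, K₁ = max K₀ 1 := ⟨_, rfl⟩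
  have hK₁1 : 1 ≤ K₁ := by rw [hK₁]; exact le_max_right _ _
  have hK₁0 : K₀ ≤ K₁ := by rw [hK₁]; exact le_max_left _ _
  obtain ⟨b₀, hb₀⟩ : ∃ b₀, b₀ = 2 * (B * K₁) * (196 * K₁ ^ 2) ^ 11 := ⟨_, rfl⟩
  have hb₀0 : 0 ≤ b₀ := by rw [hb₀]; positivity
  obtain ⟨D₁, hD₁⟩ : ∃ D₁, D₁ = K₁ ^ 6 * (b₀ + 1) * Cn := ⟨_, rfl⟩
  obtain ⟨D₂, hD₂⟩ : ∃ D₂, D₂ = (2 * c₁) ^ 6 * (Cq * Cn + Cn) := ⟨_, rfl⟩
  obtain ⟨D₃, hD₃⟩ : ∃ D₃, D₃ = 2 * (2 * c₁) ^ 5 * Cr * Cn + Cn := ⟨_, rfl⟩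
  have hD₁0 : 0 ≤ D₁ := by rw [hD₁]; positivity
  have hD₂0 : 0 ≤ D₂ := by rw [hD₂]; positivity
  have hD₃1 : 1 ≤ D₃ := by
    rw [hD₃]
    have : 0 ≤ 2 * (2 * c₁) ^ 5 * Cr * Cn := by positivity
    linarith
  refine ⟨D₁ + D₂ + D₃, by linarith, ?_⟩
  intro F hF X σ s₀ l A N m₀ m₂ r₀ P hpar hk2 hA _ hPr hP
  obtain ⟨hNX, hK1', hKX, hXK, hy1, hm, hy4, hσ0, -⟩ := parG_factsh3 hM hε₀ hpar
  have hX := hpar.X1
  have hX0 : 0 < X := by linarith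
  have hN := hpar.N1
  have hN1 : (1 : ℝ) ≤ N := by exact_mod_cast hN
  have hσ := hpar.σ0
  have hin := hpar.inn
  have hl0 : 0 < l := hin.1
  obtain ⟨y, hy⟩ : ∃ y, y = (M : ℝ) ^ m₂ := ⟨_, rfl⟩
  have hyc : (((M ^ m₂ : ℕ) : ℕ) : ℝ) = y := by
    rw [hy]
    push_cast
    rfl
  have hy1' : 1 ≤ y := by rw [hy]; exact hy1
  have hy4' : X * N < ((M : ℝ) ^ m₂) ^ 4 * (M : ℝ) ^ 4 := by
    have := hk2
    rw [pow_add, mul_comm 4 m₂, pow_mul] at this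
    exact this
  have hy4a : y ^ 4 ≤ X * N := by rw [hy]; exact hy4
  have hy4b : X * N < y ^ 4 * (M : ℝ) ^ 4 := by rw [hy]; exact hy4'
  have hy0 : 0 < y := by linarith
  have hXη : 1 ≤ X ^ η := Real.one_le_rpow hX hη.le
  -- the numerical inequalities
  obtain ⟨n1, -, -, -, n5, n6⟩ := hnum X N (6 / y) 1 hX hN1 hpar.hi one_pos
    (by
      have e1 : (6 / y) ^ 4 * (X * N) = 1296 * (X * N) / y ^ 4 := by
        field_simp
        ring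
      rw [e1]
      have h1 : 1 ≤ 1296 * (X * N) / y ^ 4 := by
        rw [le_div_iff₀ (by positivity)]
        linarith
      exact one_le_mul_of_one_le_of_one_le (by linarith) h1)
    (by
      have e1 : (6 / y) ^ 4 * (X * N) = 1296 * (X * N) / y ^ 4 := by
        field_simp
        ring
      rw [e1, div_le_iff₀ (by positivity)]
      linarith)
    (by positivity)
    (by
      have h1 : 6 / y ≤ 6 := div_le_self (by norm_num) hy1'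
      linarith)
  have hn5 := n5 hpar.lo
  have hFR0 : 0 ≤ FR X N := by
    by_contra hcon
    push Not at hcon
    have : Cn * FR X N < 0 := mul_neg_of_pos_of_neg (by linarith) hcon
    linarith
  have hF0 : 0 ≤ X ^ η * FR X N := by positivity
  have hcardy : (P.card : ℝ) ≤ y := by
    have h1 := Finset.card_le_card hPr
    rw [Finset.card_range] at h1
    have h2 : (P.card : ℝ) ≤ ((M ^ m₂ : ℕ) : ℝ) := by exact_mod_cast h1
    rw [hyc] at h2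
    exact h2
  have hGcn : arc 0 (cn N) (M ^ m₀) r₀ ⊆ cn N := fun k hk => (mem_arc.1 hk).1
  rcases lt_or_ge (X * N) K₁ with hlt | hge
  · -- bounded parameters
    have h1 : ∀ r ∈ P, RN F s₀ l B X (arc 0 (arc 0 (cn N) (M ^ m₀) r₀) (M ^ m₂) r) + 1 ≤ ENNReal.ofReal (b₀ + 1) := by
      intro r _
      rw [ENNReal.ofReal_add hb₀0 zero_le_one, ENNReal.ofReal_one]
      refine add_le_add ?_ le_rfl
      refine (RN_cardh3 F hl0 hB hX _).trans (ENNReal.ofReal_le_ofReal ?_)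
      have h2 : ((arc 0 (arc 0 (cn N) (M ^ m₀) r₀) (M ^ m₂) r).card : ℝ) ≤ 196 * K₁ ^ 2 := by
        have h3 : Cone N 2 (arc 0 (arc 0 (cn N) (M ^ m₀) r₀) (M ^ m₂) r) := fun k hk => (cn_cone hN).1 k (hGcn (mem_arc.1 hk).1)
        have h4 := card_le hN1 (by norm_num) h3
        have h5 : (N : ℝ) ≤ K₁ := by
          have : (N : ℝ) ≤ X * N := le_mul_of_one_le_left (by linarith) hX
          linarith
        calc ((arc 0 (arc 0 (cn N) (M ^ m₀) r₀) (M ^ m₂) r).card : ℝ) ≤ 49 * 2 ^ 2 * (N : ℝ) ^ 2 := h4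
          _ = 196 * (N : ℝ) ^ 2 := by ring
          _ ≤ 196 * K₁ ^ 2 := by gcongr
      rw [hb₀]
      have h3 : X ≤ K₁ := by linarith
      gcongr
    refine (SG_leh3 (by positivity) h1).trans (ENNReal.ofReal_le_ofReal ?_)
    have h2 : (P.card : ℝ) ≤ K₁ := by
      have : y ≤ y ^ 4 := le_self_pow₀ hy1' (by norm_num)
      linarith
    calc (P.card : ℝ) ^ 6 * (b₀ + 1) ≤ K₁ ^ 6 * (b₀ + 1) := by gcongr
      _ ≤ K₁ ^ 6 * (b₀ + 1) * ((Cn * FR X N) * X ^ η) := by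
        refine le_mul_of_one_le_right (by positivity) ?_
        exact one_le_mul_of_one_le_of_one_le n6 hXη
      _ = D₁ * (X ^ η * FR X N) := by rw [hD₁]; ring
      _ ≤ (D₁ + D₂ + D₃) * (X ^ η * FR X N) := mul_le_mul_of_nonneg_right (by linarith) hF0
      _ = (D₁ + D₂ + D₃) * X ^ η * FR X N := by ring
  · obtain ⟨hKa, hKb⟩ := hK₀ (X * N) (hK₁0.trans hge)
    have hy3 : 15 ≤ (M : ℝ) ^ m₂ := by
      rw [← hy]
      have h1 : (15 * (M : ℝ)) ^ 4 < (y * M) ^ 4 := by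
        rw [mul_pow y]
        exact lt_of_le_of_lt hKb hy4b
      have h2 := lt_of_pow_lt_pow_left₀ 4 (by positivity) h1
      exact (lt_of_mul_lt_mul_right h2 (by linarith)).le
    have hcount : (P.card : ℝ) ≤ c₁ * (1 + A ^ 2 * (1 / (M : ℝ) ^ m₀)) := by
      have h1 := hcnt (M ^ m₀) (M ^ m₂) r₀ A (Nat.one_le_pow _ _ (by omega)) (Nat.pow_le_pow_right (by omega) hpar.m) hA
      have h2 : (((M ^ m₀ : ℕ) : ℕ) : ℝ) = (M : ℝ) ^ m₀ := by push_cast; rfl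
      rw [← h2]
      refine le_trans ?_ h1
      refine Nat.cast_le.2 (Finset.card_le_card fun r hr => ?_)
      obtain ⟨p1, n, p2, p3, p4, -, p5⟩ := hP r hr
      rw [Finset.mem_filter]
      exact ⟨hPr hr, p1, n, p2, p3, p4, p5⟩
    have hz0 : 0 < (M : ℝ) ^ m₀ := by positivity
    rcases le_or_gt (A ^ 2) ((M : ℝ) ^ m₀) with hcase | hcase
    · have h1 : (P.card : ℝ) ≤ 2 * c₁ := by
        have h2 : A ^ 2 * (1 / (M : ℝ) ^ m₀) ≤ 1 := by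
          rw [mul_one_div, div_le_one hz0]
          exact hcase
        calc (P.card : ℝ) ≤ c₁ * (1 + A ^ 2 * (1 / (M : ℝ) ^ m₀)) := hcount
          _ ≤ c₁ * (1 + 1) := by gcongr
          _ = 2 * c₁ := by ring
      refine (caseOneh3 hM hη hCq hCn hin (hq F hF) hnum hX hN hNX hpar.hi hGcn (by linarith) hy4 hy4' h1).trans (ENNReal.ofReal_le_ofReal ?_)
      calc (2 * c₁) ^ 6 * ((Cq * Cn + Cn) * X ^ η * FR X N) = D₂ * (X ^ η * FR X N) := by rw [hD₂]; ring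
        _ ≤ (D₁ + D₂ + D₃) * (X ^ η * FR X N) := mul_le_mul_of_nonneg_right (by linarith) hF0
        _ = (D₁ + D₂ + D₃) * X ^ η * FR X N := by ring
    · have h1 : (P.card : ℝ) ≤ 2 * c₁ * A ^ 2 * (1 / (M : ℝ) ^ m₀) := by
        have h2 : 1 ≤ A ^ 2 * (1 / (M : ℝ) ^ m₀) := by
          rw [mul_one_div, one_le_div hz0]
          exact hcase.le
        calc (P.card : ℝ) ≤ c₁ * (1 + A ^ 2 * (1 / (M : ℝ) ^ m₀)) := hcount
          _ ≤ c₁ * (A ^ 2 * (1 / (M : ℝ) ^ m₀) + A ^ 2 * (1 / (M : ℝ) ^ m₀)) := by gcongr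
          _ = 2 * c₁ * A ^ 2 * (1 / (M : ℝ) ^ m₀) := by ring
      refine (caseTwoh3 hF hB₀ hM hη hε₀ hCr hCn hβ1 hβ2 hβ3 (hr F hF) hpar hy4' hA (by positivity) hKa hy3 h1 hPr n1 hn5 fun r hr => (hP r hr).2).trans
        (ENNReal.ofReal_le_ofReal ?_)
      calc (2 * (2 * c₁) ^ 5 * Cr * Cn + Cn) * X ^ η * FR X N = D₃ * (X ^ η * FR X N) := by rw [hD₃]; ring
        _ ≤ (D₁ + D₂ + D₃) * (X ^ η * FR X N) := mul_le_mul_of_nonneg_right (by linarith) hF0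
        _ = (D₁ + D₂ + D₃) * X ^ η * FR X N := by ring

end Pool.Agent.Helper60.GM
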