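import Pool.Agent.Helper60.GM.Defs
import Pool.Agent.Helper78.RT.ClassIof
import Pool.Agent.Helper58.RT.B2
import Pool.Agent.Helper70.RT.K12
import Pool.Agent.Helper77.RT.Num

/-!
# Project GM, E1a: type I arcs, from the blocks Q3 and C4 (after Helper78/RT)
-/

open MeasureTheory Real Set Filter Topology

set_option autoImplicit false

namespace Pool.Agent.Helper60.GM

open Pool.Agent.Helper22.AE
open Pool.Agent.Helper92.GC (dt tp Tq uu tt arc dd sqa m6)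
open Pool.Agent.Helper92.DT (m12 IsMul12)
open Pool.Agent.Helper60.LT (Fr Tf xf yf df vf fr ac co Cut BB PP)
open Pool.Agent.Helper60.QL (nm Cone)
open Pool.Agent.Helper60.RT (R2 cn FR sp Pr prs ctr lf2 ln2 hoelder78 five78 Cut.mono78 arc_near cn_cone cn_cut count_I num_bds)
open Pool.Agent.Helper78.QL (card_le mem_arc)

/-- the statement of Q3 -/
def StQ3h3 : Prop := ∀ {η B₀ B : ℝ} (_ : 0 < η) (_ : 1 ≤ B₀) (_ : 1 ≤ B), ∃ C : ℝ, 1 ≤ C ∧ ∀ (F : Fam), F.Ok B₀ → ∀ (X : ℝ) (N : ℕ) (W D τ s₀ l : ℝ) (S : Finset (ℤ × ℤ)), 1 ≤ X → 1 ≤ N →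
    (N : ℝ) ≤ X → 0 ≤ W → W ≤ 2 → 1 ≤ D → In s₀ l → S ⊆ cn N → (∀ k ∈ S, |tt 0 k - τ| ≤ W) → (∀ k ∈ S, D * (Int.gcd k.1 k.2 : ℝ) ≤ k.1) →
      RN F s₀ l B X S ≤ ENNReal.ofReal (C * X ^ (1 + η) * (N ^ 2 * W + N / D) ^ 7 * (N ^ 2 * W + (N / D) ^ 2) ^ 2 * (1 + N ^ 3 / X))

/-- the statement of C4 -/
def StC4h3 : Prop := ∀ {ε B₀ B β : ℝ} (_ : 0 < ε) (_ : 1 ≤ B₀) (_ : 1 ≤ B) (_ : 1 ≤ β), ∃ C : ℝ, 1 ≤ C ∧
    ∀ (F : Fam), F.Ok B₀ → ∀ (ι : Type) (P : Finset ι) (I : ι → Finset (ℤ × ℤ)) (n : ι → ℤ × ℤ) (X U σ s₀ l : ℝ) (N : ℕ), 1 ≤ X → 1 ≤ N → (N : ℝ) ≤ X → 1 ≤ U → 0 < σ → σ ≤ β → In s₀ l →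
      (∀ p ∈ P, Pr (n p) ∧ U ≤ β * (n p).1 ∧ ((n p).1 : ℝ) ≤ β * U ∧ |sp (n p)| ≤ 3 ∧ ∀ s ∈ Icc (s₀ - l) (s₀ + l), σ ≤ |F.J s (sp (n p))|) →
      (∀ p ∈ P, Cut β (I p) ∧ I p ⊆ cn N ∧ ∀ k ∈ I p, ((n p).1 : ℝ) ^ 2 * |tt 0 k - sp (n p)| ≤ 2 ∧ |tt 0 k - sp (n p)| ^ 4 * (X * N) ≤ β) →
      (∀ v : ℤ × ℤ, ((open Classical in P.filter (fun p => n p = v)).card : ℝ) ≤ β) →
        ∑ p ∈ P, RN F s₀ l B X (I p) ≤ ENNReal.ofReal (C * (X * N) ^ ε * (X / (σ * l)) * U ^ (-(10 : ℝ)) * BB N (X * N))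

/-! ## Auxiliary facts -/

theorem RN_emptyh3 (F : Fam) (s₀ l B X : ℝ) : RN F s₀ l B X ∅ = 0 := by
  unfold RN mf m12 tp
  simp

theorem RN_cardh3 (F : Fam) {s₀ l B X : ℝ} (hl : 0 < l) (hB : 1 ≤ B) (hX : 1 ≤ X) (S : Finset (ℤ × ℤ)) :
    RN F s₀ l B X S ≤ ENNReal.ofReal (2 * (B * X) * (S.card : ℝ) ^ 11) := by
  have hX0 : 0 < X := by linarith
  have hB0 : 0 < B := by linarith
  have hc : (0 : ℝ) ≤ (S.card : ℝ) ^ 11 := by positivity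
  have h1 : ∀ s : ℝ, ∫⁻ r in Icc (X / B) (B * X), ENNReal.ofReal (mf F S r s) ≤ ENNReal.ofReal ((S.card : ℝ) ^ 11 * (B * X)) := by
    intro s
    calc ∫⁻ r in Icc (X / B) (B * X), ENNReal.ofReal (mf F S r s) ≤ ∫⁻ r in Icc (X / B) (B * X), ENNReal.ofReal ((S.card : ℝ) ^ 11) := by
          refine lintegral_mono fun r => ENNReal.ofReal_le_ofReal ?_
          exact Pool.Agent.Helper60.LT.m12_le_card S fun k _ => (ee_norm _).le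
      _ = ENNReal.ofReal ((S.card : ℝ) ^ 11) * ENNReal.ofReal (B * X - X / B) := by rw [setLIntegral_const, Real.volume_Icc]
      _ = ENNReal.ofReal ((S.card : ℝ) ^ 11 * (B * X - X / B)) := by rw [ENNReal.ofReal_mul hc]
      _ ≤ ENNReal.ofReal ((S.card : ℝ) ^ 11 * (B * X)) := by
          refine ENNReal.ofReal_le_ofReal (mul_le_mul_of_nonneg_left ?_ hc)
          have : 0 ≤ X / B := by positivity
          linarith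
  have h0 : 0 ≤ (S.card : ℝ) ^ 11 * (B * X) := by positivity
  unfold RN
  calc ENNReal.ofReal l⁻¹ * ∫⁻ s in Icc (s₀ - l) (s₀ + l), ∫⁻ r in Icc (X / B) (B * X), ENNReal.ofReal (mf F S r s) ≤
        ENNReal.ofReal l⁻¹ * ∫⁻ _ in Icc (s₀ - l) (s₀ + l), ENNReal.ofReal ((S.card : ℝ) ^ 11 * (B * X)) :=
        mul_le_mul' le_rfl (lintegral_mono fun s => h1 s)
    _ = ENNReal.ofReal l⁻¹ * (ENNReal.ofReal ((S.card : ℝ) ^ 11 * (B * X)) * ENNReal.ofReal (s₀ + l - (s₀ - l))) := by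
        rw [setLIntegral_const, Real.volume_Icc]
    _ = ENNReal.ofReal (2 * (B * X) * (S.card : ℝ) ^ 11) := by
        rw [← ENNReal.ofReal_mul h0, ← ENNReal.ofReal_mul (by positivity)]
        congr 1
        field_simp
        ring

/-- a uniform bound of the moments of the arcs -/
theorem SG_leh3 {F : Fam} {s₀ l B X : ℝ} {G : Finset (ℤ × ℤ)} {N : ℕ} {P : Finset ℕ} {c : ℝ} (hc : 0 ≤ c)
    (h : ∀ r ∈ P, RN F s₀ l B X (arc 0 G N r) + 1 ≤ ENNReal.ofReal c) : SG F s₀ l B X G N P ≤ ENNReal.ofReal ((P.card : ℝ) ^ 6 * c) := by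
  have hp : (0 : ℝ) ≤ (P.card : ℝ) := Nat.cast_nonneg _
  unfold SG
  refine (hoelder78 P _).trans ?_
  calc (P.card : ENNReal) ^ 5 * ∑ r ∈ P, (RN F s₀ l B X (arc 0 G N r) + 1) ≤ (P.card : ENNReal) ^ 5 * ∑ r ∈ P, ENNReal.ofReal c :=
        mul_le_mul' le_rfl (Finset.sum_le_sum h)
    _ = ENNReal.ofReal (P.card : ℝ) ^ 5 * (ENNReal.ofReal (P.card : ℝ) * ENNReal.ofReal c) := by
        rw [Finset.sum_const, nsmul_eq_mul, ENNReal.ofReal_natCast]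
    _ = ENNReal.ofReal ((P.card : ℝ) ^ 6 * c) := by
        rw [← ENNReal.ofReal_pow hp, ← ENNReal.ofReal_mul hp, ← ENNReal.ofReal_mul (by positivity)]
        congr 1
        ring

/-- the parameters of a good sector, in the form used below -/
theorem parG_factsh3 {F : Fam} {M : ℕ} {ε₀ L X σ s₀ l : ℝ} {N m₀ m₂ r₀ : ℕ} (hM : 2 ≤ M) (hε₀ : 0 < ε₀) (h : ParG F M ε₀ L X σ s₀ l N m₀ m₂ r₀) :
    (N : ℝ) ≤ X ∧ 1 ≤ X * N ∧ X * N ≤ X ^ 2 ∧ X ≤ X * N ∧ 1 ≤ (M : ℝ) ^ m₂ ∧ (M : ℝ) ^ m₀ ≤ (M : ℝ) ^ m₂ ∧ ((M : ℝ) ^ m₂) ^ 4 ≤ X * N ∧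
      1 ≤ σ * (M : ℝ) ^ m₀ ∧ (X * N) ^ ε₀ ≤ σ * (M : ℝ) ^ m₂ := by
  have hX := h.X1
  have hX0 : 0 < X := by linarith
  have hN : (1 : ℝ) ≤ N := by exact_mod_cast h.N1
  have hM1 : (1 : ℝ) ≤ M := by
    have : 1 ≤ M := by omega
    exact_mod_cast this
  have hNX : (N : ℝ) ≤ X := by
    refine h.hi.trans ?_
    calc X ^ (4 / 9 + 1 / 1000 : ℝ) ≤ X ^ (1 : ℝ) := Real.rpow_le_rpow_of_exponent_le hX (by norm_num)
      _ = X := Real.rpow_one X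
  have hK1 : 1 ≤ X * N := one_le_mul_of_one_le_of_one_le hX hN
  have hm : (M : ℝ) ^ m₀ ≤ (M : ℝ) ^ m₂ := pow_le_pow_right₀ hM1 h.m
  refine ⟨hNX, hK1, ?_, le_mul_of_one_le_right hX0.le hN, one_le_pow₀ hM1, hm, ?_, ?_, ?_⟩
  · rw [pow_two]
    exact mul_le_mul_of_nonneg_left hNX hX0.le
  · have := h.k1
    rw [mul_comm 4 m₂, pow_mul] at this
    exact this
  · exact (Real.one_le_rpow hK1 hε₀.le).trans h.σm
  · exact h.σm.trans (mul_le_mul_of_nonneg_left hm h.σ0.le)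

/-- few arcs: a uniform bound -/
theorem caseOneh3 {F : Fam} {η s₀ l B : ℝ} {M : ℕ} {Cq Cn : ℝ} (hM : 2 ≤ M) (hη : 0 < η) (hCq : 1 ≤ Cq) (hCn : 1 ≤ Cn) (hin : In s₀ l)
    (hq : ∀ (X : ℝ) (N : ℕ) (W D τ s₀ l : ℝ) (S : Finset (ℤ × ℤ)), 1 ≤ X → 1 ≤ N →
      (N : ℝ) ≤ X → 0 ≤ W → W ≤ 2 → 1 ≤ D → In s₀ l → S ⊆ cn N → (∀ k ∈ S, |tt 0 k - τ| ≤ W) → (∀ k ∈ S, D * (Int.gcd k.1 k.2 : ℝ) ≤ k.1) →
      RN F s₀ l B X S ≤ ENNReal.ofReal (Cq * X ^ (1 + η) * (N ^ 2 * W + N / D) ^ 7 * (N ^ 2 * W + (N / D) ^ 2) ^ 2 * (1 + N ^ 3 / X)))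
    (hnum : ∀ (X N w Q : ℝ), 1 ≤ X → 1 ≤ N → N ≤ X ^ (4 / 9 + 1 / 1000 : ℝ) → 0 < Q → 1 ≤ (1296 * (M : ℝ) ^ 4) * (w ^ 4 * (X * N)) →
      w ^ 4 * (X * N) ≤ 1296 * (M : ℝ) ^ 4 → 0 < w → w ≤ 1296 * (M : ℝ) ^ 4 →
      X * BB N (X * N) ≤ Cn * FR X N ∧
      X * ((N ^ 2 * w + N) ^ 7 * (N ^ 2 * w + N ^ 2) ^ 2 * (1 + N ^ 3 / X)) ≤ Cn * FR X N ∧
      X * (w ^ 6 * N ^ 18 * (1 + N ^ 3 / X)) ≤ Cn * FR X N ∧
      X * min (w * Q ^ 2 * BB N (X * N)) (N ^ 18 * (1 + N ^ 3 / X) / (Q ^ 12 * w ^ 3)) ≤ Cn * FR X N ∧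
      (X ^ (1 / 10 : ℝ) ≤ N → (X * N) ^ (3 / 2 : ℝ) ≤ Cn * FR X N) ∧ 1 ≤ Cn * FR X N)
    {X : ℝ} {N m₂ : ℕ} {G : Finset (ℤ × ℤ)} {P : Finset ℕ} {c : ℝ} (hX : 1 ≤ X) (hN : 1 ≤ N) (hNX : (N : ℝ) ≤ X)
    (hhi : (N : ℝ) ≤ X ^ (4 / 9 + 1 / 1000 : ℝ)) (hG : G ⊆ cn N) (h3 : 3 ≤ (M : ℝ) ^ m₂) (h4 : ((M : ℝ) ^ m₂) ^ 4 ≤ X * N)
    (h5 : X * N < ((M : ℝ) ^ m₂) ^ 4 * (M : ℝ) ^ 4) (hc : (P.card : ℝ) ≤ c) :
    SG F s₀ l B X G (M ^ m₂) P ≤ ENNReal.ofReal (c ^ 6 * ((Cq * Cn + Cn) * X ^ η * FR X N)) := by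
  have hX0 : 0 < X := by linarith
  have hN1 : (1 : ℝ) ≤ N := by exact_mod_cast hN
  have hM0 : (2 : ℝ) ≤ M := by exact_mod_cast hM
  obtain ⟨y, hy⟩ : ∃ y, y = (M : ℝ) ^ m₂ := ⟨_, rfl⟩
  rw [← hy] at h3 h4 h5
  have hy0 : 0 < y := by linarith
  have hyc : (((M ^ m₂ : ℕ) : ℕ) : ℝ) = y := by
    rw [hy]
    push_cast
    rfl
  obtain ⟨w, hw⟩ : ∃ w, w = 6 / y := ⟨_, rfl⟩
  have hw0 : 0 < w := by rw [hw]; positivity
  have hw2 : w ≤ 2 := by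
    rw [hw, div_le_iff₀ hy0]
    linarith
  have hw4 : w ^ 4 * (X * N) = 1296 * (X * N) / y ^ 4 := by
    rw [hw]
    field_simp
    ring
  have hM4 : (1 : ℝ) ≤ (M : ℝ) ^ 4 := one_le_pow₀ (by linarith)
  have hwa : 1296 ≤ w ^ 4 * (X * N) := by
    rw [hw4, le_div_iff₀ (by positivity)]
    exact mul_le_mul_of_nonneg_left h4 (by norm_num)
  have hwb : w ^ 4 * (X * N) ≤ 1296 * (M : ℝ) ^ 4 := by
    rw [hw4, div_le_iff₀ (by positivity)]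
    nlinarith
  have hnb : 1 ≤ (1296 * (M : ℝ) ^ 4) * (w ^ 4 * (X * N)) := by
    have : 1 ≤ 1296 * (M : ℝ) ^ 4 := by linarith
    exact one_le_mul_of_one_le_of_one_le this (by linarith)
  obtain ⟨-, n2, -, -, -, n6⟩ := hnum X N w 1 hX hN1 hhi one_pos hnb hwb hw0 (by linarith)
  have hXη : 1 ≤ X ^ η := Real.one_le_rpow hX hη.le
  have hFR0 : 0 ≤ FR X N := by
    by_contra hcon
    push Not at hcon
    have : Cn * FR X N < 0 := mul_neg_of_pos_of_neg (by linarith) hcon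
    linarith
  obtain ⟨c', hc'⟩ : ∃ c', c' = (Cq * Cn + Cn) * X ^ η * FR X N := ⟨_, rfl⟩
  have hc'0 : 0 ≤ c' := by rw [hc']; positivity
  have hone : ∀ r ∈ P, RN F s₀ l B X (arc 0 G (M ^ m₂) r) + 1 ≤ ENNReal.ofReal c' := by
    intro r _
    have hsub : arc 0 G (M ^ m₂) r ⊆ cn N := fun k hk => hG (mem_arc.1 hk).1
    have h6 : RN F s₀ l B X (arc 0 G (M ^ m₂) r) ≤ ENNReal.ofReal (Cq * Cn * X ^ η * FR X N) := by
      refine (hq X N w 1 (ctr (M ^ m₂) r) s₀ l _ hX hN hNX hw0.le hw2 le_rfl hin hsub ?_ ?_).trans (ENNReal.ofReal_le_ofReal ?_)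
      · intro k hk
        have := arc_near (Nat.one_le_pow _ _ (by omega)) hG hk
        rw [hyc] at this
        rw [hw]
        exact this
      · intro k hk
        have h7 := ((cn_cone hN).2 k (hsub hk)).1
        have h8 : (0 : ℤ) < k.1 := by
          have : (0 : ℝ) < k.1 := by linarith
          exact_mod_cast this
        have h9 : (Int.gcd k.1 k.2 : ℤ) ≤ k.1 := Int.le_of_dvd h8 (Int.gcd_dvd_left _ _)
        rw [one_mul]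
        exact_mod_cast h9
      · rw [div_one]
        calc Cq * X ^ (1 + η) * (N ^ 2 * w + N) ^ 7 * (N ^ 2 * w + (N : ℝ) ^ 2) ^ 2 * (1 + (N : ℝ) ^ 3 / X) =
              Cq * X ^ η * (X * ((N ^ 2 * w + N) ^ 7 * (N ^ 2 * w + (N : ℝ) ^ 2) ^ 2 * (1 + (N : ℝ) ^ 3 / X))) := by
              rw [Real.rpow_add hX0, Real.rpow_one]
              ring
          _ ≤ Cq * X ^ η * (Cn * FR X N) := mul_le_mul_of_nonneg_left n2 (by positivity)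
          _ = Cq * Cn * X ^ η * FR X N := by ring
    have h7 : (1 : ENNReal) ≤ ENNReal.ofReal (Cn * X ^ η * FR X N) := by
      rw [ENNReal.one_le_ofReal]
      calc (1 : ℝ) ≤ Cn * FR X N := n6
        _ ≤ (Cn * FR X N) * X ^ η := le_mul_of_one_le_right (by positivity) hXη
        _ = Cn * X ^ η * FR X N := by ring
    calc RN F s₀ l B X (arc 0 G (M ^ m₂) r) + 1 ≤ ENNReal.ofReal (Cq * Cn * X ^ η * FR X N) + ENNReal.ofReal (Cn * X ^ η * FR X N) := add_le_add h6 h7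
      _ = ENNReal.ofReal c' := by
        rw [← ENNReal.ofReal_add (by positivity) (by positivity), hc']
        congr 1
        ring
  have hp : (0 : ℝ) ≤ (P.card : ℝ) := Nat.cast_nonneg _
  have hmain : SG F s₀ l B X G (M ^ m₂) P ≤ ENNReal.ofReal ((P.card : ℝ) ^ 6 * c') := SG_leh3 hc'0 hone
  refine hmain.trans (ENNReal.ofReal_le_ofReal ?_)
  rw [← hc']
  gcongr

end Pool.Agent.Helper60.GM
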